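import Mathlib

/-!
Definitions for the construction of senders (and of graphs with prescribed colour patterns) for
3-connected graphs.
-/

set_option autoImplicit false

namespace Pool.Agent.Helper27.BEL

/-- A finite `t`-uniform hypergraph with vertex set `Z`; the hyperedges are indexed by `I`, and the
vertices of a hyperedge are ordered. -/
structure Inst (t : ℕ) where
  Z : Type
  I : Type
  [fZ : Fintype Z]
  [dZ : DecidableEq Z]
  [fI : Fintype I]
  [dI : DecidableEq I]
  e : I → Fin t → Z
  inj : ∀ i, Function.Injective (e i)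

attribute [instance] Inst.fZ Inst.dZ Inst.fI Inst.dI

namespace Inst

variable {t : ℕ} (A : Inst t)

/-- The `a`-th vertex of the hyperedge `i` lies on another hyperedge of the collection `S`. -/
def Shared (S : Finset A.I) (i : A.I) (a : Fin t) : Prop :=
  ∃ j ∈ S, j ≠ i ∧ ∃ b, A.e j b = A.e i a

/-- The hyperedge `i` has at most one vertex on the other hyperedges of `S`. -/
def Leaf (S : Finset A.I) (i : A.I) : Prop :=
  ∀ a b, A.Shared S i a → A.Shared S i b → a = b

/-- Every collection of between `2` and `m` hyperedges has two leaves. -/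
def TwoLeaf (m : ℕ) : Prop :=
  ∀ S : Finset A.I, 2 ≤ S.card → S.card ≤ m →
    ∃ i ∈ S, ∃ j ∈ S, i ≠ j ∧ A.Leaf S i ∧ A.Leaf S j

/-- The `a`-th vertex of the hyperedge `i` is `u` or `w` or lies on another hyperedge of `S`. -/
def Touch (S : Finset A.I) (u w : A.Z) (i : A.I) (a : Fin t) : Prop :=
  A.e i a = u ∨ A.e i a = w ∨ A.Shared S i a

/-- Every nonempty collection of at most `m` hyperedges has a member with at most one vertex in
`{u, w}` or on the other members. -/
def FarPair (m : ℕ) (u w : A.Z) : Prop :=
  u ≠ w ∧ ∀ S : Finset A.I, S.Nonempty → S.card ≤ m →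
    ∃ i ∈ S, ∀ a b, A.Touch S u w i a → A.Touch S u w i b → a = b

/-- The 2-colouring `χ` of the vertices satisfies the constraint `ρ` on every hyperedge. -/
def Sat (ρ : Set (Fin t → Bool)) (χ : A.Z → Bool) : Prop :=
  ∀ i, (fun a => χ (A.e i a)) ∈ ρ

end Inst

/-- `c` is a symmetric 2-colouring of the edges of `G` without a monochromatic copy of `H`. -/
def MonoFree {n : ℕ} {V : Type*} (H : SimpleGraph (Fin n)) (G : SimpleGraph V)
    (c : V → V → Bool) : Prop :=
  (∀ a b, c a b = c b a) ∧ ∀ (β : Bool) (f : Fin n → V), Function.Injective f →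
    ¬ ∀ u v, H.Adj u v → G.Adj (f u) (f v) ∧ c (f u) (f v) = β

/-- The complete graph on `Fin M` together with a vertex `none` joined to `0, ..., t-1`. -/
def gad (M t : ℕ) : SimpleGraph (Option (Fin M)) where
  Adj p q := match p, q with
    | none, none => False
    | none, some i => i.val < t
    | some i, none => i.val < t
    | some i, some j => i ≠ j
  symm := ⟨by
    rintro (_ | i) (_ | j) h
    · exact h
    · exact h
    · exact h
    · exact fun h' => h h'.symm⟩
  loopless := ⟨by
    rintro (_ | i) h
    · exact h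
    · exact h rfl⟩

/-- The colour patterns that colourings of `gad M t` without monochromatic `H` have on the star of
`none`. -/
def pat {n : ℕ} (H : SimpleGraph (Fin n)) {M t : ℕ} (htM : t ≤ M) : Set (Fin t → Bool) :=
  {s | ∃ c, MonoFree H (gad M t) c ∧ ∀ a : Fin t, c none (some (Fin.castLE htM a)) = s a}

/-- A separation form of 3-connectivity. -/
def Sep {n : ℕ} (H : SimpleGraph (Fin n)) : Prop :=
  4 ≤ n ∧ ∀ T X : Finset (Fin n), T.card ≤ 2 → X.Nonempty → Disjoint X T →
    (∃ v, v ∉ X ∧ v ∉ T) → ∃ u ∈ X, ∃ v, v ∉ X ∧ v ∉ T ∧ H.Adj u v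

/-- In every colouring of `G` without monochromatic `H` (and there are some) the edges `xy` and
`xy'` have equal colours (`β = true`) or different colours (`β = false`); moreover `y` and `y'` are
not joined by a path with at most `m` vertices in `G - x`. -/
def IsSender {n : ℕ} (H : SimpleGraph (Fin n)) (m : ℕ) (β : Bool) {V : Type} (G : SimpleGraph V)
    (x y y' : V) : Prop :=
  y ≠ y' ∧ G.Adj x y ∧ G.Adj x y' ∧ (∃ c, MonoFree H G c) ∧
  (∀ c, MonoFree H G c → (c x y = c x y' ↔ β = true)) ∧
  ∀ C : Finset V, x ∉ C → C.card ≤ m →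
    ∃ g : V → Bool, g y ≠ g y' ∧ ∀ s ∈ C, ∀ s' ∈ C, G.Adj s s' → g s = g s'

/-- 3-connectivity. -/
def Conn3 {n : ℕ} (H : SimpleGraph (Fin n)) : Prop :=
  4 ≤ n ∧ ∀ T : Finset (Fin n), T.card ≤ 2 → (H.induce {v | v ∉ T}).Connected

/-- `G` together with a new vertex `none` joined to the vertices in `N`. -/
def addV {V : Type} (G : SimpleGraph V) (N : Finset V) : SimpleGraph (Option V) where
  Adj p q := match p, q with
    | none, none => False
    | none, some i => i ∈ N
    | some i, none => i ∈ N
    | some i, some j => G.Adj i j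
  symm := ⟨by
    rintro (_ | i) (_ | j) h
    · exact h
    · exact h
    · exact h
    · exact SimpleGraph.Adj.symm h⟩
  loopless := ⟨by
    rintro (_ | i) h
    · exact h
    · exact G.irrefl h⟩

end Pool.Agent.Helper27.BEL
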