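import Mathlib
import Pool.Agent.Helper27.BEL.Defs
import Pool.Agent.Helper94.MinRam.Fin

set_option autoImplicit false

namespace Pool.Agent.Helper27.BEL

open Pool.Agent.Helper94.MinRam

theorem sep_of_conn3 {n : ℕ} {H : SimpleGraph (Fin n)} (h : Conn3 H) : Sep H := by
  refine ⟨h.1, fun T X hT hX hd hv => ?_⟩
  obtain ⟨u0, hu0⟩ := hX
  obtain ⟨v0, hv0, hv0'⟩ := hv
  have hu0' : u0 ∉ T := fun h => (Finset.disjoint_left.1 hd) hu0 h
  obtain ⟨p⟩ := (h.2 T hT).preconnected ⟨u0, hu0'⟩ ⟨v0, hv0'⟩
  obtain ⟨d, -, h1, h2⟩ := p.exists_boundary_dart {w | (w : Fin n) ∈ X} hu0 hv0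
  exact ⟨d.fst, h1, d.snd, h2, d.snd.2, d.adj⟩

theorem connected_of_conn3 {n : ℕ} {H : SimpleGraph (Fin n)} (h : Conn3 H) : H.Connected := by
  have h4 := h.1
  have hne : Nonempty (Fin n) := ⟨⟨0, by omega⟩⟩
  refine ⟨fun u v => ?_⟩
  have h1 := (h.2 ∅ (by simp)).preconnected ⟨u, by simp⟩ ⟨v, by simp⟩
  exact h1.map (SimpleGraph.Embedding.induce _).toHom

/-- Every vertex of a 3-connected graph has at least three neighbours. -/
theorem three_le_of_sep {n : ℕ} {H : SimpleGraph (Fin n)} (h : Sep H) (v : Fin n) :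
    3 ≤ (H.neighborSet v).ncard := by
  classical
  by_contra hlt
  have hlt' : (H.neighborSet v).ncard ≤ 2 := by omega
  let T : Finset (Fin n) := Finset.univ.filter (fun w => H.Adj v w)
  have hT : T.card ≤ 2 := by
    have : (T : Set (Fin n)) = H.neighborSet v := by
      ext w
      simp [T]
    rw [← Set.ncard_coe_finset, this]
    exact hlt'
  have hcard : ((insert v T : Finset (Fin n))ᶜ).Nonempty := by
    rw [← Finset.card_pos, Finset.card_compl, Fintype.card_fin]
    have := Finset.card_insert_le v T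
    have := h.1
    omega
  obtain ⟨w, hw⟩ := hcard
  rw [Finset.mem_compl, Finset.mem_insert, not_or] at hw
  obtain ⟨u, hu, w', hw1, hw2, hadj⟩ := h.2 T {v} hT (Finset.singleton_nonempty v)
    (by simp [T]) ⟨w, by simpa using hw.1, hw.2⟩
  rw [Finset.mem_singleton] at hu
  subst hu
  exact hw2 (by simp [T, hadj])

theorem hasMin_of_ext {n : ℕ} (H : SimpleGraph (Fin n)) {V : Type} [Finite V]
    (G : SimpleGraph V) (N : Finset V) (k : ℕ) (hN : N.card ≤ k)
    (h1 : ∃ c, MonoFree H G c) (h2 : ∀ c, ¬ MonoFree H (addV G N) c) : HasMin H k := by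
  classical
  refine hasMin_of H (addV G N) {p | p ≠ none} k ?_ ?_ ?_
  · intro c hc
    by_contra hcon
    apply h2 (fun a b => decide (c a b = 1))
    refine ⟨fun a b => by simp only [hc a b], fun β f hf hmono => hcon ?_⟩
    refine ⟨if β = true then 1 else 0, f, hf, fun _ => Set.mem_univ _, fun u v huv => ?_⟩
    obtain ⟨h3, h4⟩ := hmono u v huv
    refine ⟨h3, ?_⟩
    rcases β with _ | _
    · simp only [decide_eq_false_iff_not] at h4
      simp only [Bool.false_eq_true, if_false]
      have := (c (f u) (f v)).isLt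
      omega
    · simpa using h4
  · intro hcon
    obtain ⟨c, hc⟩ := h1
    let c' : Option V → Option V → Fin 2 := fun p q => match p, q with
      | some a, some b => if c a b = true then 1 else 0
      | _, _ => 0
    obtain ⟨i, f, hf, hfS, hmono⟩ := hcon c' (by
      rintro (_ | a) (_ | b)
      · rfl
      · rfl
      · rfl
      · simp only [c', hc.1 a b])
    choose g hg using fun v => Option.ne_none_iff_exists'.1 (hfS v)
    refine hc.2 (decide (i = 1)) g ?_ ?_
    · intro u v huv
      apply hf
      rw [hg, hg, huv]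
    · intro u v huv
      obtain ⟨h3, h4⟩ := hmono u v huv
      rw [hg, hg] at h3 h4
      refine ⟨h3, ?_⟩
      simp only [c'] at h4
      by_cases h5 : c (g u) (g v) = true
      · rw [if_pos h5] at h4
        rw [← h4, h5]
        simp
      · rw [if_neg h5] at h4
        rw [← h4]
        simpa using h5
  · intro x hx
    have hx' : x = none := by
      by_contra hne
      exact hx hne
    subst hx'
    have h3 : (addV G N).neighborSet none ⊆ (N.image some : Finset (Option V)) := by
      rintro (_ | a) ha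
      · exact absurd ha (fun h => h)
      · have : a ∈ N := ha
        simp [this]
    refine (Set.ncard_le_ncard h3 (Set.toFinite _)).trans ?_
    rw [Set.ncard_coe_finset]
    exact Finset.card_image_le.trans hN

/-- A colouring with the least number of colours in which a given class is the last one. -/
theorem exists_min_coloring {n : ℕ} (H : SimpleGraph (Fin n)) (h1 : ¬ H.Colorable 0) :
    ∃ r : ℕ, ¬ H.Colorable r ∧ H.Colorable (r + 1) := by
  classical
  have hex : ∃ r, H.Colorable r := ⟨n, by
    have := H.colorable_of_fintype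
    simpa using this⟩
  have hspec := Nat.find_spec hex
  have h0 : Nat.find hex ≠ 0 := by
    intro h
    rw [h] at hspec
    exact h1 hspec
  refine ⟨Nat.find hex - 1, Nat.find_min hex (by omega), ?_⟩
  rw [Nat.sub_add_cancel (by omega)]
  exact hspec

theorem q1_arith {n r d w : ℕ} (hd : 1 ≤ d) (hr : r ≤ n - 1) (hw : 1 ≤ w) :
    r * (d - 1) + (n - w) ≤ d * (n - 1) := by
  obtain ⟨e, rfl⟩ : ∃ e, d = e + 1 := ⟨d - 1, by omega⟩
  have h1 : r * e ≤ (n - 1) * e := Nat.mul_le_mul_right _ hr
  have h2 : (e + 1) * (n - 1) = (n - 1) * e + (n - 1) := by ring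
  rw [h2]
  simp only [Nat.add_sub_cancel]
  omega

end Pool.Agent.Helper27.BEL
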