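import Mathlib
import Pool.Agent.Helper27.BEL.Defs
import Pool.Agent.Helper94.MinRam.Fin

set_option autoImplicit false

namespace Pool.Agent.Helper27.BEL

open Pool.Agent.Helper94.MinRam

theorem MonoFree.compl {n : ℕ} {V : Type*} {H : SimpleGraph (Fin n)} {G : SimpleGraph V}
    {c : V → V → Bool} (h : MonoFree H G c) : MonoFree H G (fun a b => !(c a b)) := by
  refine ⟨fun a b => by simp only [h.1 a b], fun β f hf hcon => h.2 (!β) f hf fun u v huv => ?_⟩
  obtain ⟨h1, h2⟩ := hcon u v huv
  refine ⟨h1, ?_⟩
  rw [← h2]
  simp

/-- Pull back along an injective homomorphism. -/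
theorem MonoFree.pull {n : ℕ} {V W : Type*} {H : SimpleGraph (Fin n)} {G : SimpleGraph V}
    {G' : SimpleGraph W} {c : V → V → Bool} (h : MonoFree H G c) (e : W → V)
    (he : Function.Injective e) (hadj : ∀ a b, G'.Adj a b → G.Adj (e a) (e b)) :
    MonoFree H G' (fun a b => c (e a) (e b)) := by
  refine ⟨fun a b => h.1 _ _, fun β f hf hcon => h.2 β (fun x => e (f x)) (he.comp hf) ?_⟩
  intro u v huv
  obtain ⟨h1, h2⟩ := hcon u v huv
  exact ⟨hadj _ _ h1, h2⟩

/-- The complete graph on sufficiently many vertices is Ramsey for `H`. -/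
theorem exists_ramsey {n : ℕ} (H : SimpleGraph (Fin n)) :
    ∃ N : ℕ, ∀ c, ¬ MonoFree H (⊤ : SimpleGraph (Fin N)) c := by
  obtain ⟨N, hN⟩ := exists_cliqueArrow n
  refine ⟨N, fun c hc => ?_⟩
  obtain ⟨i, g, hg, hgi⟩ := hN (fun p q => if c p q = true then 1 else 0) (fun p q => by rw [hc.1])
  refine hc.2 (decide (i = 1)) g hg fun u v huv => ?_
  have hne : u ≠ v := H.ne_of_adj huv
  refine ⟨fun h => hne (hg h), ?_⟩
  have := hgi u v hne
  by_cases h1 : c (g u) (g v) = true
  · rw [if_pos h1] at this
    rw [← this, h1]
    simp
  · rw [if_neg h1] at this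
    rw [← this]
    simpa using h1

/-- `gad M M` is complete. -/
theorem gad_top {n : ℕ} {H : SimpleGraph (Fin n)} {M : ℕ} {c : Option (Fin M) → Option (Fin M) → Bool}
    (hc : MonoFree H (gad M M) c) : ∃ c', MonoFree H (⊤ : SimpleGraph (Fin (M + 1))) c' := by
  let e : Fin (M + 1) → Option (Fin M) := Fin.lastCases none (fun i => some i)
  have he1 : e (Fin.last M) = none := by simp [e]
  have he2 : ∀ i : Fin M, e i.castSucc = some i := by intro i; simp [e]
  have he : Function.Injective e := by
    intro a b hab
    induction a using Fin.lastCases with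
    | last =>
      induction b using Fin.lastCases with
      | last => rfl
      | cast b => rw [he1, he2] at hab; exact absurd hab (by simp)
    | cast a =>
      induction b using Fin.lastCases with
      | last => rw [he1, he2] at hab; exact absurd hab (by simp)
      | cast b => rw [he2, he2] at hab; rw [Option.some.inj hab]
  refine ⟨_, hc.pull (G' := ⊤) e he ?_⟩
  intro a b hab
  have hab' : a ≠ b := hab
  induction a using Fin.lastCases with
  | last =>
    induction b using Fin.lastCases with
    | last => exact absurd rfl hab'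
    | cast b => rw [he1, he2]; exact b.2
  | cast a =>
    induction b using Fin.lastCases with
    | last => rw [he1, he2]; exact a.2
    | cast b =>
      rw [he2, he2]
      intro h
      exact hab' (by rw [h])

theorem pat_compl {n M t : ℕ} {H : SimpleGraph (Fin n)} {htM : t ≤ M} {s : Fin t → Bool}
    (hs : s ∈ pat H htM) : (fun a => !(s a)) ∈ pat H htM := by
  obtain ⟨c, hc, h⟩ := hs
  exact ⟨_, hc.compl, fun a => by simp only [h a]⟩

theorem exists_gadget {n : ℕ} (hn : 1 ≤ n) (H : SimpleGraph (Fin n))
    (hdeg : ∀ v, ∃ a b, a ≠ b ∧ H.Adj v a ∧ H.Adj v b) :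
    ∃ M t : ℕ, ∃ htM : t ≤ M, 2 ≤ t ∧ (∀ b : Bool, (fun _ => b) ∉ pat H htM) ∧
      (fun a : Fin t => decide (a.val = t - 1)) ∈ pat H htM ∧
      ∀ s ∈ pat H htM, (fun a => !(s a)) ∈ pat H htM := by
  classical
  -- the largest complete graph with a colouring
  have hex := exists_ramsey H
  let N := Nat.find hex
  have hN : ∀ c, ¬ MonoFree H (⊤ : SimpleGraph (Fin N)) c := Nat.find_spec hex
  have hN0 : N ≠ 0 := by
    intro h0
    have : MonoFree H (⊤ : SimpleGraph (Fin N)) (fun _ _ => true) := by
      refine ⟨fun _ _ => rfl, fun β f _ _ => ?_⟩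
      have := (f ⟨0, hn⟩).2
      omega
    exact hN _ this
  obtain ⟨M, hM⟩ : ∃ M, N = M + 1 := ⟨N - 1, by omega⟩
  have hMfree : ∃ c, MonoFree H (⊤ : SimpleGraph (Fin M)) c := by
    have := Nat.find_min hex (m := M) (by change M < N; omega)
    push Not at this
    exact this
  have hMtop : ∀ c, ¬ MonoFree H (gad M M) c := by
    intro c hc
    obtain ⟨c', hc'⟩ := gad_top hc
    rw [hM] at hN
    exact hN _ hc'
  -- the least `t` without constant pattern
  let Q : ℕ → Prop := fun t => ∃ htM : t ≤ M, ∀ b : Bool, (fun _ => b) ∉ pat H htM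
  have hQ : ∃ t, Q t := by
    refine ⟨M, le_rfl, fun b hb => ?_⟩
    obtain ⟨c, hc, -⟩ := hb
    exact hMtop c hc
  let t := Nat.find hQ
  obtain ⟨htM, htc⟩ : Q t := Nat.find_spec hQ
  have ht0 : t ≠ 0 := by
    intro h0
    obtain ⟨c, hc⟩ := hMfree
    apply htc true
    refine ⟨fun p q => match p, q with
      | some i, some j => c i j
      | _, _ => true, ⟨?_, ?_⟩, ?_⟩
    · rintro (_ | i) (_ | j)
      · rfl
      · rfl
      · rfl
      · exact hc.1 i j
    · intro β f hf hcon
      have hne : ∀ v, f v ≠ none := by
        intro v hv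
        obtain ⟨a, -, -, ha, -⟩ := hdeg v
        have := (hcon v a ha).1
        rw [hv] at this
        rcases hfa : f a with _ | i
        · rw [hfa] at this; exact this
        · rw [hfa] at this
          have : i.val < t := this
          omega
      choose g hg using fun v => Option.ne_none_iff_exists'.1 (hne v)
      refine hc.2 β g ?_ ?_
      · intro u v huv
        apply hf
        rw [hg, hg, huv]
      · intro u v huv
        obtain ⟨h1, h2⟩ := hcon u v huv
        rw [hg, hg] at h1 h2
        exact ⟨h1, h2⟩
    · intro a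
      exact absurd a.2 (by omega)
  obtain ⟨t', ht'⟩ : ∃ t', t = t' + 1 := ⟨t - 1, by omega⟩
  have ht'M : t' ≤ M := by omega
  -- colouring for `t'`
  have hmin : ¬ Q t' := Nat.find_min hQ (by change t' < t; omega)
  have hpat' : (fun _ => false) ∈ pat H ht'M := by
    by_contra hcon
    apply hmin
    refine ⟨ht'M, fun b hb => ?_⟩
    rcases b with _ | _
    · exact hcon hb
    · exact hcon (pat_compl hb)
  obtain ⟨c, hc, hcs⟩ := hpat'
  have htlt : t' < M := by omega
  let z : Option (Fin M) := some ⟨t', htlt⟩
  let c' : Option (Fin M) → Option (Fin M) → Bool := fun p q =>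
    if (p = none ∧ q = z) ∨ (p = z ∧ q = none) then true else c p q
  have hc'symm : ∀ p q, c' p q = c' q p := by
    intro p q
    simp only [c']
    have : ((p = none ∧ q = z) ∨ (p = z ∧ q = none)) ↔ ((q = none ∧ p = z) ∨ (q = z ∧ p = none)) := by
      tauto
    rw [if_congr this rfl rfl, hc.1 p q]
  have hstar : ∀ i : Fin M, i.val < t → c' none (some i) = decide (i.val = t - 1) := by
    intro i hi
    by_cases hit : i.val = t'
    · have : some i = z := by
        simp only [z]
        congr 1
        exact Fin.ext hit
      simp only [c', this, true_and]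
      simp [hit, ht']
    · have hne : some i ≠ z := by
        intro h
        simp only [z, Option.some.injEq] at h
        exact hit (by rw [h])
      have hcond : ¬ ((none = (none : Option (Fin M)) ∧ some i = z) ∨ ((none : Option (Fin M)) = z ∧ some i = none)) := by
        rintro (⟨-, h⟩ | ⟨h, -⟩)
        · exact hne h
        · exact absurd h (by simp [z])
      simp only [c', if_neg hcond]
      have := hcs ⟨i.val, by omega⟩
      have hi' : Fin.castLE ht'M ⟨i.val, by omega⟩ = i := Fin.ext rfl
      rw [hi'] at this
      rw [this]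
      symm
      simp only [decide_eq_false_iff_not]
      omega
  have hc'free : MonoFree H (gad M t) c' := by
    refine ⟨hc'symm, fun β f hf hcon => ?_⟩
    -- the edge `none z` is not used
    have hno : ∀ u v, H.Adj u v → f u = none → f v ≠ z := by
      intro u v huv hu hv
      have hβ : β = true := by
        rw [← (hcon u v huv).2, hu, hv]
        simp [c']
      obtain ⟨a, b, hab, ha, hb⟩ := hdeg u
      have hkey : ∀ w, H.Adj u w → f w = z := by
        intro w hw
        obtain ⟨h1, h2⟩ := hcon u w hw
        rw [hu] at h1 h2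
        rcases hfw : f w with _ | i
        · rw [hfw] at h1; exact absurd h1 (fun h => h)
        · rw [hfw] at h1 h2
          have hi : i.val < t := h1
          rw [hstar i hi, hβ] at h2
          have : i.val = t - 1 := by simpa using h2
          simp only [z]
          congr 1
          apply Fin.ext
          simp only
          omega
      exact hab (hf ((hkey a ha).trans (hkey b hb).symm))
    refine hc.2 β f hf fun u v huv => ?_
    obtain ⟨h1, h2⟩ := hcon u v huv
    have hcond : ¬ ((f u = none ∧ f v = z) ∨ (f u = z ∧ f v = none)) := by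
      rintro (⟨h3, h4⟩ | ⟨h3, h4⟩)
      · exact hno u v huv h3 h4
      · exact hno v u huv.symm h4 h3
    simp only [c', if_neg hcond] at h2
    refine ⟨?_, h2⟩
    rcases hfu : f u with _ | i
    · rcases hfv : f v with _ | j
      · rw [hfu, hfv] at h1; exact h1
      · rw [hfu, hfv] at h1
        have hj : j.val < t := h1
        have hjne : j.val ≠ t' := by
          intro hj'
          apply hcond
          left
          refine ⟨hfu, ?_⟩
          rw [hfv]
          simp only [z]
          congr 1
          exact Fin.ext hj'
        change j.val < t'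
        omega
    · rcases hfv : f v with _ | j
      · rw [hfu, hfv] at h1
        have hj : i.val < t := h1
        have hjne : i.val ≠ t' := by
          intro hj'
          apply hcond
          right
          refine ⟨?_, hfv⟩
          rw [hfu]
          simp only [z]
          congr 1
          exact Fin.ext hj'
        change i.val < t'
        omega
      · rw [hfu, hfv] at h1
        exact h1
  refine ⟨M, t, htM, ?_, htc, ⟨c', hc'free, fun a => hstar _ a.2⟩, fun s hs => pat_compl hs⟩
  -- `2 ≤ t`
  by_contra hlt
  have ht1 : t = 1 := by omega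
  apply htc true
  refine ⟨c', hc'free, fun a => ?_⟩
  rw [hstar _ a.2]
  have := a.2
  simp only [Fin.val_castLE, decide_eq_true_eq]
  omega

end Pool.Agent.Helper27.BEL
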