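import Mathlib
import Pool.Agent.Helper27.BEL.Defs
import Pool.Agent.Helper27.BEL.Gadget
import Pool.Agent.Helper27.BEL.Conv
import Pool.Agent.Helper5.BEL.BEL2
import Pool.Agent.Helper51.BEL.Link
import Pool.Agent.Helper87.BEL.Hyper
import Pool.Agent.Helper45.BEL.Sender
import Pool.Agent.Helper28.BEL6
import Pool.Agent.Helper54.BEL.Bound

set_option autoImplicit false

namespace Pool.Agent.Helper27.BEL

open Pool.Agent.Helper94.MinRam

theorem exists_sender {n : ℕ} (H : SimpleGraph (Fin n)) (hH : Sep H) (m : ℕ) (β : Bool) :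
    ∃ (V : Type) (_ : Fintype V) (G : SimpleGraph V) (x y y' : V), IsSender H m β G x y y' := by
  have h4 := hH.1
  obtain ⟨M, t, htM, ht, hconst, hτ, hcomp⟩ := exists_gadget (by omega) H (fun v => by
    have h3 := three_le_of_sep hH v
    obtain ⟨a, ha, b, hb, hab⟩ := (Set.one_lt_ncard (Set.toFinite _)).1
      (show 1 < (H.neighborSet v).ncard by omega)
    exact ⟨a, b, hab, ha, hb⟩)
  obtain ⟨K, hK, hcol⟩ := Pool.Agent.Helper87.BEL.exists_hyper (m ^ 2 + n ^ 2 + 1) t
  have hpos : 1 ≤ m ^ 2 + n ^ 2 := by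
    have : 0 < n ^ 2 := by positivity
    omega
  obtain ⟨E, u, w, β0, hfar, hsat, hforce⟩ := Pool.Agent.Helper5.BEL.exists_far ht (pat H htM)
    hcomp hconst hτ (m ^ 2 + n ^ 2) hpos K hK hcol
  obtain ⟨A, p, q, hfar', hsat', hforce'⟩ := Pool.Agent.Helper51.BEL.exists_link ht (pat H htM)
    hcomp hconst hτ _ E u w β0 hfar hsat hforce β
  exact Pool.Agent.Helper45.BEL.sender_of_inst H hH htM m β A p q hfar' hsat' hforce'

/-- `s(H) ≤ (χ(H)-1)(δ(H)-1) + |V(H)| - |W|` for every 3-connected graph `H` and every colour class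
`W` of a colouring with `χ(H) = r + 1` colours. -/
theorem three_connected_bound {n r d : ℕ} (H : SimpleGraph (Fin n)) (h3 : Conn3 H)
    (hd : IsMinDeg H d) (C : Fin n → Fin (r + 1)) (hC : ∀ u v, H.Adj u v → C u ≠ C v)
    (hr : ¬ H.Colorable r) (j : Fin (r + 1)) :
    HasMin H (r * (d - 1) + (n - (Finset.univ.filter (fun v => C v = j)).card)) := by
  classical
  have hsep := sep_of_conn3 h3
  obtain ⟨⟨x₀, hx₀⟩, hdeg⟩ := hd
  have hd3 : 3 ≤ d := by
    rw [← hx₀]
    exact three_le_of_sep hsep x₀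
  obtain ⟨V, _, G, N, hN, h1, h2⟩ := Pool.Agent.Helper54.BEL.bound H (connected_of_conn3 h3) (by omega) hdeg x₀ hx₀
    (fun {V} _ P φ hφ => Pool.Agent.Helper28.BEL.bel H hsep (fun β => exists_sender H hsep (n + 2) β) P φ hφ)
    (fun v => Equiv.swap j (Fin.last r) (C v))
    (fun u v huv h => hC u v huv ((Equiv.swap j (Fin.last r)).injective h)) hr
  refine hasMin_of_ext H G N _ ?_ h1 h2
  refine hN.trans ?_
  have : (Finset.univ.filter (fun v => Equiv.swap j (Fin.last r) (C v) = Fin.last r)) =
      Finset.univ.filter (fun v => C v = j) := by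
    ext v
    simp only [Finset.mem_filter, Finset.mem_univ, true_and]
    rw [Equiv.swap_apply_eq_iff, Equiv.swap_apply_right]
  rw [this]

/-- `s(H) ≤ δ(H) (|V(H)| - 1)` for every 3-connected graph `H`. -/
theorem three_connected_q1 {n d : ℕ} (H : SimpleGraph (Fin n)) (h3 : Conn3 H)
    (hd : IsMinDeg H d) : HasMin H (d * (n - 1)) := by
  classical
  have h4 := h3.1
  have hconn := connected_of_conn3 h3
  have hne := ne_bot_of_connected (by omega) H hconn
  obtain ⟨r, hr, hr1⟩ := exists_min_coloring H (by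
    intro h
    obtain ⟨c⟩ := h
    exact (c ⟨0, by omega⟩).elim0)
  obtain ⟨C⟩ := hr1
  have hrn : r ≤ n - 1 := by
    by_contra hcon
    apply hr
    have h5 : H.Colorable n := by
      have := H.colorable_of_fintype
      simpa using this
    exact h5.mono (by omega)
  have hb := three_connected_bound H h3 hd C (fun u v huv => C.valid huv) hr (C ⟨0, by omega⟩)
  have hd1 := minDeg_pos (by omega) H hconn hd
  refine hb.mono (q1_arith hd1 hrn ?_)
  rw [Nat.succ_le_iff, Finset.card_pos]
  exact ⟨⟨0, by omega⟩, by simp⟩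

/-- All classes of a colouring with `χ(H)` colours are nonempty. -/
theorem class_nonempty {n r : ℕ} (H : SimpleGraph (Fin n)) (C : Fin n → Fin (r + 1))
    (hC : ∀ u v, H.Adj u v → C u ≠ C v) (hr : ¬ H.Colorable r) (j : Fin (r + 1)) :
    1 ≤ (Finset.univ.filter (fun v => C v = j)).card := by
  classical
  rw [Nat.succ_le_iff, Finset.card_pos]
  by_contra hcon
  rw [Finset.not_nonempty_iff_eq_empty] at hcon
  apply hr
  have hne : ∀ v, C v ≠ j := by
    intro v hv
    have : v ∈ (Finset.univ.filter (fun v => C v = j)) := by simp [hv]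
    rw [hcon] at this
    simp at this
  choose D hD using fun v => Fin.exists_succAbove_eq (hne v)
  exact ⟨SimpleGraph.Coloring.mk D (fun {u v} huv h => hC u v huv (by rw [← hD u, ← hD v, h]))⟩

theorem three_connected_both {n r d : ℕ} (H : SimpleGraph (Fin n)) (h3 : Conn3 H)
    (hd : IsMinDeg H d) (C : Fin n → Fin (r + 1)) (hC : ∀ u v, H.Adj u v → C u ≠ C v)
    (hr : ¬ H.Colorable r) (j : Fin (r + 1)) :
    HasMin H (r * (d - 1) + (n - (Finset.univ.filter (fun v => C v = j)).card)) ∧
      r * (d - 1) + (n - (Finset.univ.filter (fun v => C v = j)).card) ≤ d * (n - 1) := by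
  refine ⟨three_connected_bound H h3 hd C hC hr j, q1_arith ?_ ?_ (class_nonempty H C hC hr j)⟩
  · have h4 := h3.1
    exact minDeg_pos (by omega) H (connected_of_conn3 h3) hd
  · by_contra hcon
    apply hr
    have h5 : H.Colorable n := by
      have := H.colorable_of_fintype
      simpa using this
    exact h5.mono (by omega)

end Pool.Agent.Helper27.BEL
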